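import Pool.Agent.H.MP_ae074a_al.G

namespace Pool.Agent.Results.MP_3fd305_al.No
open Pool.Agent.H.MP_ae074a_al

/-- The variety `A N_c`: groups with an abelian normal subgroup whose quotient is nilpotent of
class at most `c`. -/
def AN (c : ℕ) : Set GrpCat.{0} :=
  {G | ∃ (K : Subgroup G) (_ : K.Normal), (∀ a ∈ K, ∀ b ∈ K, a * b = b * a) ∧
    Group.IsNilpotent (G ⧸ K) ∧ Group.nilpotencyClass (G ⧸ K) ≤ c}

theorem result : ∃ V : Set (FreeGroup ℕ), Var V ⊆ AN 3 ∧
    ¬ ∃ W : Set (FreeGroup ℕ), W.Finite ∧ Var W = Var V := by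
  obtain ⟨V, h1, h2⟩ := fam 2
  by_contra h
  push Not at h
  choose W w1 w2 using fun J => h (V J) fun G hG => by
    have e : (⊤ : Subgroup (G ⧸ (⊤ : Subgroup G).lowerCentralSeries 3)).lowerCentralSeries 3
        = ⊥ := by
      rw [← Subgroup.map_top_of_surjective _ (QuotientGroup.mk'_surjective _),
        ← Subgroup.map_lowerCentralSeries, QuotientGroup.map_mk'_self]
    have n := Subgroup.nilpotent_iff_lowerCentralSeries.2 ⟨3, e⟩
    exact ⟨(⊤ : Subgroup G).lowerCentralSeries 3, inferInstance, fun a ha b hb =>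
      commutatorElement_eq_one_iff_mul_comm.1 (Subgroup.commutator_le.1 (h2 J G hG).2.le a ha b hb),
      n, Subgroup.lowerCentralSeries_eq_bot_iff_nilpotencyClass_le.1 e⟩
  have : Countable {W : Set (FreeGroup ℕ) | W.Finite} := Set.Countable.ofPred_finite
  have : Countable (Set ℕ) := Function.Injective.countable
    (f := fun J => (⟨W J, w1 J⟩ : {W : Set (FreeGroup ℕ) | W.Finite})) fun J J' e =>
      h1 ((w2 J).symm.trans ((congrArg (fun x => Var x.1) e).trans (w2 J')))
  have := Cardinal.mk_le_aleph0_iff.2 this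
  rw [Cardinal.mk_set_nat] at this
  exact Cardinal.aleph0_lt_continuum.not_ge this

end Pool.Agent.Results.MP_3fd305_al.No
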